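import Pool.Agent.CIP.P

set_option autoImplicit false

open MeasureTheory Pointwise Set Filter Topology

namespace Pool.CIP

variable {n : ℕ} {μ : Measure (E n)}

lemma hs_scale {d : ℝ} (hd : 0 < d) (w : E n) (t : ℝ) : hs w (t / d) = hs (d • w) t := by
  ext x
  simp only [hs, mem_ofPred_eq, real_inner_smul_left]
  rw [div_le_iff₀' hd]

/-- the doubling lemma with noise `d` instead of `1` -/
lemma double_d [IsProbabilityMeasure μ] (hsym : μ.map (fun x => -x) = μ) (hlc : LC μ)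
    {A : Set (E n)} (hAc : IsCompact A) (hAs : ∀ x ∈ A, -x ∈ A) {α d : ℝ} (hα : 0 < α)
    (hd : 0 < d) (hA : α ≤ μ.real (d • A)) {T : Set (E n)}
    (hT : ∀ v ∈ T, ∀ a ∈ A, inner ℝ v a ≤ (1:ℝ))
    {S : Set (E n)} (hS : MeasurableSet S) {t κ : ℝ} (hκ0 : 0 ≤ κ)
    (hκ : ∀ v ∈ T, μ.real (S ∩ hs v t) ≤ κ) {N : ℕ} (hN0 : 0 < N)
    (hN : N * κ ≤ μ.real S / 2) :
    ∃ S' ⊆ S, MeasurableSet S' ∧ μ.real S / 2 ≤ μ.real S' ∧
      ∀ v ∈ T, μ.real (S' ∩ hs v (t + d)) ≤ 2 / (α * N ^ 2) := by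
  obtain ⟨S', h1, h2, h3, h4⟩ := double (A := d • A) hsym hlc (hAc.smul d) (by
      rintro _ ⟨a, ha, rfl⟩
      exact ⟨-a, hAs a ha, by simp⟩) hα hA (T := {w | d • w ∈ T}) (by
      rintro w hw _ ⟨a, ha, rfl⟩
      have h := hT _ hw a ha
      rw [real_inner_smul_left] at h
      show inner ℝ w (d • a) ≤ 1
      rw [real_inner_smul_right]
      exact h) hS (t := t / d) hκ0 (by
      intro w hw
      rw [hs_scale hd]
      exact hκ _ hw) hN0 hN
  refine ⟨S', h1, h2, h3, fun v hv => ?_⟩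
  have e0 : d • (d⁻¹ • v) = v := by rw [smul_smul, mul_inv_cancel₀ hd.ne', one_smul]
  have h5 := h4 (d⁻¹ • v) (by
    show d • (d⁻¹ • v) ∈ T
    rw [e0]; exact hv)
  have e1 : t / d + 1 = (t + d) / d := by field_simp
  rw [e1, hs_scale hd, e0] at h5
  exact h5

/-- iteration of the doubling lemma with small noises -/
lemma iter_d [IsProbabilityMeasure μ] (hsym : μ.map (fun x => -x) = μ) (hlc : LC μ)
    {A : Set (E n)} (hAc : IsCompact A) (hAs : ∀ x ∈ A, -x ∈ A) {q : ℝ} (hq : 0 ≤ q)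
    {d : ℕ → ℝ} {J : ℕ} (hd : ∀ j < J, 0 < d j)
    (hA : ∀ j < J, Real.exp (-((3/2:ℝ) ^ j * q)) ≤ μ.real (d j • A)) {T : Set (E n)}
    (hT : ∀ v ∈ T, ∀ a ∈ A, inner ℝ v a ≤ (1:ℝ))
    {B : Set (E n)} (hB : MeasurableSet B) (hBpos : 0 < μ.real B) {t₀ : ℝ}
    (h0 : ∀ v ∈ T, μ.real (B ∩ hs v t₀) ≤ μ.real B ^ 2 / 128 * Real.exp (-(2 * q))) (j : ℕ)
    (hj : j ≤ J) :
    ∃ S ⊆ B, MeasurableSet S ∧ 0 < μ.real S ∧
      ∀ v ∈ T, μ.real (S ∩ hs v (t₀ + ∑ i ∈ Finset.range j, d i)) ≤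
        μ.real S ^ 2 / 128 * Real.exp (-(2 * (3/2:ℝ) ^ j * q)) := by
  induction j with
  | zero =>
    refine ⟨B, subset_rfl, hB, hBpos, ?_⟩
    simpa using h0
  | succ j ih =>
    obtain ⟨S, hSB, hS, hSpos, hSk⟩ := ih (by omega)
    set s := μ.real S with hs_def
    have hs1 : s ≤ 1 := measureReal_le_one
    set ω := Real.exp (-(2 * (3/2:ℝ) ^ j * q)) with hω
    have hω0 : 0 < ω := Real.exp_pos _
    have hω1 : ω ≤ 1 := by
      rw [hω, Real.exp_le_one_iff]
      have : 0 ≤ 2 * (3/2:ℝ) ^ j * q := by positivity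
      linarith
    have hκ : 0 < s ^ 2 / 128 * ω := by positivity
    set κ := s ^ 2 / 128 * ω with hκdef
    have hx : 64 ≤ s / (2 * κ) := by
      rw [le_div_iff₀ (by positivity)]
      have h4 : 64 * (2 * κ) = s * (s * ω) := by rw [hκdef]; ring
      rw [h4]
      have h5 : s * ω ≤ 1 := by
        calc s * ω ≤ 1 * 1 := mul_le_mul hs1 hω1 hω0.le zero_le_one
          _ = 1 := one_mul 1
      nlinarith
    set N := ⌊s / (2 * κ)⌋₊ with hN
    have hNle : (N:ℝ) ≤ s / (2 * κ) := Nat.floor_le (by positivity)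
    have hNgt : s / (2 * κ) < N + 1 := Nat.lt_floor_add_one _
    have hN1 : s / (4 * κ) ≤ N := by
      have h5 : s / (4 * κ) = s / (2 * κ) / 2 := by field_simp; norm_num
      rw [h5]; linarith
    have hN0 : 0 < N := by
      have : (0:ℝ) < N := by linarith
      exact_mod_cast this
    have hNκ : (N:ℝ) * κ ≤ s / 2 := by
      calc (N:ℝ) * κ ≤ s / (2 * κ) * κ := mul_le_mul_of_nonneg_right hNle hκ.le
        _ = s / 2 := by field_simp
    set α := Real.exp (-((3/2:ℝ) ^ j * q)) with hαdef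
    have hα : 0 < α := Real.exp_pos _
    obtain ⟨S', hS'S, hS', hS'm, hS'k⟩ := double_d hsym hlc hAc hAs hα (hd j (by omega))
      (hA j (by omega)) hT hS hκ.le hSk hN0 hNκ
    have hS'pos : 0 < μ.real S' := by linarith
    refine ⟨S', hS'S.trans hSB, hS', hS'pos, fun v hv => ?_⟩
    have h6 := hS'k v hv
    have e1 : t₀ + ∑ i ∈ Finset.range (j + 1), d i = t₀ + ∑ i ∈ Finset.range j, d i + d j := by
      rw [Finset.sum_range_succ]; ring
    rw [e1]
    refine h6.trans ?_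
    have h7 : 2 / (α * (N:ℝ) ^ 2) ≤ 2 / (α * (s / (4 * κ)) ^ 2) := by
      apply div_le_div_of_nonneg_left (by norm_num) (by positivity)
      apply mul_le_mul_of_nonneg_left _ hα.le
      exact pow_le_pow_left₀ (by positivity) hN1 2
    refine h7.trans ?_
    have h8 : 2 / (α * (s / (4 * κ)) ^ 2) = (s / 2) ^ 2 / 128 * (ω ^ 2 / α) := by
      rw [hκdef]; field_simp; ring
    have h9 : ω ^ 2 / α = Real.exp (-(2 * (3/2:ℝ) ^ (j + 1) * q)) := by
      rw [hω, hαdef, ← Real.exp_nat_mul, ← Real.exp_sub]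
      congr 1
      rw [pow_succ]
      push_cast
      ring
    rw [h8, h9]
    have h10 : (s / 2) ^ 2 ≤ μ.real S' ^ 2 := pow_le_pow_left₀ (by positivity) hS'm 2
    gcongr

/-- the core statement for compact symmetric convex bodies, with small noises -/
theorem MT_d [IsProbabilityMeasure μ] (hsym : μ.map (fun x => -x) = μ) (hlc : LC μ)
    {A : Set (E n)} (hAc : IsCompact A) (hAconv : Convex ℝ A) (hAs : ∀ x ∈ A, -x ∈ A)
    (hAi : (interior A).Nonempty) {q : ℝ} (hq : 1 ≤ q) {d : ℕ → ℝ} {J : ℕ}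
    (hd : ∀ j < J, 0 < d j)
    (hA : ∀ j < J, Real.exp (-((3/2:ℝ) ^ j * q)) ≤ μ.real (d j • A))
    (hJ : (n:ℝ) ≤ (3/2:ℝ) ^ J * q) {L : ℝ} (hL0 : 0 < L)
    (hL : 4 * ∑ j ∈ Finset.range J, d j ≤ L) :
    μ.real (L • A + G μ q (4 * Real.exp 9))ᶜ ≤ Real.exp (-q) := by
  have hfin : ∀ q : ℝ, 0 < q → ∀ v : E n, mq μ q v < ⊤ := fun q hq v => mq_lt_top hsym hlc hq v
  have hq0 : 0 < q := by linarith
  set C : ℝ := 4 * Real.exp 9 with hCdef
  have hC : 0 < C := by positivity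
  set D := G μ q C with hD
  have hDc : IsCompact D := isCompact_G q C
  have hDconv : Convex ℝ D := convex_G
  have hD0 : (0 : E n) ∈ D := zero_mem_G hC.le
  have hA0i := zero_mem_interior hAconv hAs hAi
  have hA0 : (0 : E n) ∈ A := interior_subset hA0i
  have hWc : IsCompact (L • A + D) := (hAc.smul L).add hDc
  by_contra hcon
  rw [not_le] at hcon
  set B := (L • A + D)ᶜ with hB
  have hBm : MeasurableSet B := hWc.measurableSet.compl
  have hBpos : 0 < μ.real B := (Real.exp_pos _).trans hcon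
  set T : Set (E n) := {v | (∀ a ∈ A, inner ℝ v a ≤ (1:ℝ)) ∧ ∀ z ∈ D, inner ℝ v z ≤ L} with hT
  have hTcl : IsClosed T := by
    have e : T = (⋂ a ∈ A, {v : E n | inner ℝ v a ≤ (1:ℝ)}) ∩
        ⋂ z ∈ D, {v : E n | inner ℝ v z ≤ L} := by
      ext v; simp [hT]
    rw [e]
    apply IsClosed.inter
    · exact isClosed_biInter fun a _ => isClosed_le (by fun_prop) continuous_const
    · exact isClosed_biInter fun a _ => isClosed_le (by fun_prop) continuous_const
  obtain ⟨r, hr, hrA⟩ : ∃ r > 0, Metric.closedBall (0 : E n) r ⊆ A :=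
    Metric.nhds_basis_closedBall.mem_iff.1 (mem_interior_iff_mem_nhds.1 hA0i)
  have hTb : Bornology.IsBounded T := by
    rw [isBounded_iff_forall_norm_le]
    refine ⟨1 / r, fun v hv => ?_⟩
    rcases eq_or_ne v 0 with h0 | h0
    · rw [h0, norm_zero]; positivity
    have hn : 0 < ‖v‖ := norm_pos_iff.2 h0
    have h1 : (r / ‖v‖) • v ∈ A := by
      apply hrA
      rw [mem_closedBall_zero_iff, norm_smul, Real.norm_eq_abs, abs_of_pos (by positivity)]
      rw [div_mul_cancel₀ _ hn.ne']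
    have h2 := hv.1 _ h1
    rw [real_inner_smul_right, real_inner_self_eq_norm_sq] at h2
    rw [le_div_iff₀ hr]
    calc ‖v‖ * r = r / ‖v‖ * ‖v‖ ^ 2 := by field_simp
      _ ≤ 1 := h2
  have hTc : IsCompact T := Metric.isCompact_of_isClosed_isBounded hTcl hTb
  have hTconv : Convex ℝ T := by
    intro v hv w hw a b ha hb hab
    refine ⟨fun x hx => ?_, fun z hz => ?_⟩
    · rw [inner_add_left, real_inner_smul_left, real_inner_smul_left]
      have h1 := mul_le_mul_of_nonneg_left (hv.1 x hx) ha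
      have h2 := mul_le_mul_of_nonneg_left (hw.1 x hx) hb
      linarith
    · rw [inner_add_left, real_inner_smul_left, real_inner_smul_left]
      have h1 := mul_le_mul_of_nonneg_left (hv.2 z hz) ha
      have h2 := mul_le_mul_of_nonneg_left (hw.2 z hz) hb
      calc _ ≤ a * L + b * L := add_le_add h1 h2
        _ = L := by rw [← add_mul, hab, one_mul]
  have hTs : ∀ x ∈ T, -x ∈ T := by
    intro v hv
    refine ⟨fun x hx => ?_, fun z hz => ?_⟩
    · have := hv.1 _ (hAs x hx)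
      rw [inner_neg_right] at this
      rw [inner_neg_left]; exact this
    · have := hv.2 _ (neg_mem_G hz)
      rw [inner_neg_right] at this
      rw [inner_neg_left]; exact this
  have hTi : (interior T).Nonempty := by
    obtain ⟨R, hR⟩ := isBounded_iff_forall_norm_le.1 hAc.isBounded
    obtain ⟨R', hR'⟩ := isBounded_iff_forall_norm_le.1 hDc.isBounded
    have hR0 : 0 ≤ R := (norm_nonneg _).trans (hR 0 hA0)
    have hR'0 : 0 ≤ R' := (norm_nonneg _).trans (hR' 0 hD0)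
    refine ⟨0, mem_interior_iff_mem_nhds.2 ?_⟩
    refine Filter.mem_of_superset (Metric.ball_mem_nhds (0 : E n)
      (show 0 < min (1 / (R + 1)) (L / (R' + 1)) by positivity)) ?_
    intro v hv
    rw [mem_ball_zero_iff, lt_min_iff] at hv
    refine ⟨fun a ha => ?_, fun z hz => ?_⟩
    · calc inner ℝ v a ≤ ‖v‖ * ‖a‖ := real_inner_le_norm v a
        _ ≤ 1 / (R + 1) * (R + 1) := by
            apply mul_le_mul hv.1.le ((hR a ha).trans (by linarith)) (norm_nonneg _) (by positivity)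
        _ = 1 := by field_simp
    · calc inner ℝ v z ≤ ‖v‖ * ‖z‖ := real_inner_le_norm v z
        _ ≤ L / (R' + 1) * (R' + 1) := by
            apply mul_le_mul hv.2.le ((hR' z hz).trans (by linarith)) (norm_nonneg _) (by positivity)
        _ = L := by field_simp
  obtain ⟨F, hFT, hFcard, hFnet⟩ := exists_net hTc hTconv hTs hTi
  set Dl := ∑ j ∈ Finset.range J, d j with hDl
  have hcov : ∀ x ∈ B, ∃ v ∈ F, x ∈ hs v (L / 4 + Dl) := by
    intro x hx
    obtain ⟨v, hv1, hv2, hv3⟩ := exists_sep hAc hAconv hA0 hDc hDconv hD0 hL0 hx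
    obtain ⟨v', hv'T, hv'max⟩ := hTc.exists_isMaxOn (f := fun w : E n => (inner ℝ w x : ℝ))
      ⟨v, hv1, hv2⟩ (by fun_prop)
    obtain ⟨w, hwF, u, huT, hwu⟩ := hFnet v' hv'T
    refine ⟨w, hwF, ?_⟩
    have h1 : inner ℝ v x ≤ inner ℝ v' x := hv'max ⟨hv1, hv2⟩
    have h2 : inner ℝ u x ≤ inner ℝ v' x := hv'max huT
    have h3 : inner ℝ v' x - inner ℝ w x = (1/2:ℝ) * inner ℝ u x := by
      rw [← inner_sub_left, hwu, real_inner_smul_left]
    show L / 4 + Dl ≤ inner ℝ w x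
    linarith
  have hexp9 : ∀ x : ℝ, (4 / C) ^ x = Real.exp (-9 * x) := by
    intro x
    have h1 : 4 / C = Real.exp (-9) := by
      rw [hCdef, Real.exp_neg]; field_simp
    rw [h1, ← Real.exp_mul]
  have h0 : ∀ v ∈ T, μ.real (B ∩ hs v (L / 4)) ≤
      μ.real B ^ 2 / 128 * Real.exp (-(2 * q)) := by
    intro v hv
    obtain ⟨z, hz, hzv⟩ := exists_support hfin hq v hC.le
    have h1 : C * hm μ q v ≤ L := by rw [← hzv]; exact hv.2 z hz
    have h2 := cheb hfin hq0 hL0 hC h1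
    refine (measureReal_mono inter_subset_right (measure_ne_top μ _)).trans (h2.trans ?_)
    rw [hexp9]
    have h3 : Real.exp (-q) ^ 2 ≤ μ.real B ^ 2 :=
      pow_le_pow_left₀ (Real.exp_pos _).le hcon.le 2
    have h4 : Real.exp (-9 * q) * 128 ≤ Real.exp (-q) ^ 2 * Real.exp (-(2 * q)) := by
      have h5 : Real.exp (-q) ^ 2 * Real.exp (-(2 * q)) =
          Real.exp (-9 * q) * Real.exp (5 * q) := by
        rw [← Real.exp_nat_mul, ← Real.exp_add, ← Real.exp_add]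
        congr 1
        push_cast
        ring
      rw [h5]
      apply mul_le_mul_of_nonneg_left _ (Real.exp_pos _).le
      exact exp_five.trans (Real.exp_le_exp.2 (by linarith))
    have h6 : Real.exp (-q) ^ 2 * Real.exp (-(2 * q)) ≤
        μ.real B ^ 2 * Real.exp (-(2 * q)) := by gcongr
    have h7 : μ.real B ^ 2 / 128 * Real.exp (-(2 * q)) =
        (μ.real B ^ 2 * Real.exp (-(2 * q))) / 128 := by ring
    rw [h7, le_div_iff₀ (by norm_num)]
    exact h4.trans h6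
  obtain ⟨S, hSB, hS, hSpos, hSk⟩ := iter_d hsym hlc hAc hAs hq0.le hd hA (fun v hv => hv.1) hBm
    hBpos h0 J le_rfl
  have h1 : μ.real S ≤ ∑ v ∈ F, μ.real (S ∩ hs v (L / 4 + Dl)) := by
    refine le_trans (measureReal_mono (s₂ := ⋃ v ∈ F, S ∩ hs v (L / 4 + Dl)) ?_
      (measure_ne_top μ _)) (measureReal_biUnion_finset_le _ _)
    intro x hx
    obtain ⟨v, hv, hxv⟩ := hcov x (hSB hx)
    simp only [mem_iUnion]
    exact ⟨v, hv, hx, hxv⟩
  have h2 : ∑ v ∈ F, μ.real (S ∩ hs v (L / 4 + Dl)) ≤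
      F.card * (μ.real S ^ 2 / 128 * Real.exp (-(2 * (3/2:ℝ) ^ J * q))) := by
    rw [← nsmul_eq_mul]
    exact Finset.sum_le_card_nsmul _ _ _ (fun v hv => hSk v (hFT v hv))
  set s := μ.real S with hs_def
  have hs1 : s ≤ 1 := measureReal_le_one
  have h3 : (F.card : ℝ) * Real.exp (-(2 * (3/2:ℝ) ^ J * q)) ≤ 1 := by
    have h4 : (F.card : ℝ) ≤ 5 ^ n := by exact_mod_cast hFcard
    have h5 : (5:ℝ) ^ n ≤ Real.exp (2 * (n:ℝ)) := by
      calc (5:ℝ) ^ n ≤ Real.exp 2 ^ n := pow_le_pow_left₀ (by norm_num) five_le n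
        _ = Real.exp (2 * (n:ℝ)) := by rw [← Real.exp_nat_mul]; congr 1; ring
    calc (F.card : ℝ) * Real.exp (-(2 * (3/2:ℝ) ^ J * q))
        ≤ Real.exp (2 * (n:ℝ)) * Real.exp (-(2 * (3/2:ℝ) ^ J * q)) :=
          mul_le_mul_of_nonneg_right (h4.trans h5) (Real.exp_pos _).le
      _ = Real.exp (2 * (n:ℝ) - 2 * (3/2:ℝ) ^ J * q) := by rw [← Real.exp_add]; ring_nf
      _ ≤ 1 := by rw [Real.exp_le_one_iff]; linarith
  have h4 : (F.card : ℝ) * (s ^ 2 / 128 * Real.exp (-(2 * (3/2:ℝ) ^ J * q))) ≤ s ^ 2 / 128 := by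
    calc (F.card : ℝ) * (s ^ 2 / 128 * Real.exp (-(2 * (3/2:ℝ) ^ J * q)))
        = (F.card : ℝ) * Real.exp (-(2 * (3/2:ℝ) ^ J * q)) * (s ^ 2 / 128) := by ring
      _ ≤ 1 * (s ^ 2 / 128) := mul_le_mul_of_nonneg_right h3 (by positivity)
      _ = s ^ 2 / 128 := one_mul _
  nlinarith

end Pool.CIP
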