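import Pool.Agent.CIQ.Q

set_option autoImplicit false

open MeasureTheory Pointwise Set Filter Topology

namespace Pool.CIP

variable {n : ℕ} {μ : Measure (E n)}

/-- symmetric convex sets, small noises: reduction to compact bodies -/
theorem MT2_d [IsProbabilityMeasure μ] (hsym : μ.map (fun x => -x) = μ) (hlc : LC μ)
    {A : Set (E n)} (hAm : MeasurableSet A) (hAconv : Convex ℝ A) (hAs : ∀ x ∈ A, -x ∈ A)
    {q : ℝ} (hq : 1 ≤ q) (hApos : 0 < μ.real A) {d : ℕ → ℝ} {J : ℕ} (hd : ∀ j < J, 0 < d j)
    (hA : ∀ j < J, 2 * Real.exp (-((3/2:ℝ) ^ j * q)) ≤ μ.real (d j • A))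
    (hJ : (n:ℝ) ≤ (3/2:ℝ) ^ J * q) {L : ℝ} (hL0 : 0 < L)
    (hL : 4 * ∑ j ∈ Finset.range J, d j ≤ L) :
    ∃ A₁ ⊆ A, IsCompact A₁ ∧ (0 : E n) ∈ A₁ ∧ μ.real A / 2 ≤ μ.real A₁ ∧
      μ.real (L • A₁ + G μ q (4 * Real.exp 9))ᶜ ≤ Real.exp (-q) := by
  have hq0 : 0 < q := by linarith
  obtain ⟨K, hKA, hKc, hK⟩ := exists_compact_real hAm (show μ.real A / 2 < μ.real A by linarith)
  have hKne : K.Nonempty := by
    rw [nonempty_iff_ne_empty]
    intro h
    rw [h] at hK
    simp at hK
    linarith
  have hex : ∀ j, ∃ Kj : Set (E n), IsCompact Kj ∧ (j < J → Kj ⊆ d j • A ∧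
      μ.real (d j • A) / 2 < μ.real Kj) := by
    intro j
    by_cases hj : j < J
    · have hdA : MeasurableSet (d j • A) := hAm.const_smul_of_ne_zero (hd j hj).ne'
      obtain ⟨Kj, h1, h2, h3⟩ := exists_compact_real (μ := μ) hdA
        (m := μ.real (d j • A) / 2) (by
          have h1 := hA j hj
          have h2 := Real.exp_pos (-((3/2:ℝ) ^ j * q))
          linarith)
      exact ⟨Kj, h2, fun _ => ⟨h1, h3⟩⟩
    · exact ⟨∅, isCompact_empty, fun h => absurd h hj⟩
  choose Kj hKjc hKjAm using hex
  set K' : Set (E n) := K ∪ ⋃ j ∈ Finset.range J, (d j)⁻¹ • Kj j with hK'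
  have hK'c : IsCompact K' := hKc.union
    ((Finset.range J).isCompact_biUnion fun j _ => (hKjc j).smul _)
  have hK'A : K' ⊆ A := by
    intro x hx
    rcases hx with hx | hx
    · exact hKA hx
    · simp only [mem_iUnion] at hx
      obtain ⟨j, hj, y, hy, rfl⟩ := hx
      have hj' : j < J := Finset.mem_range.1 hj
      obtain ⟨z, hz, hzy⟩ := (hKjAm j hj').1 hy
      have hzy' : d j • z = y := hzy
      show (d j)⁻¹ • y ∈ A
      rw [← hzy', smul_smul, inv_mul_cancel₀ (hd j hj').ne', one_smul]
      exact hz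
  set A₁ := convexHull ℝ (K' ∪ -K') with hA₁
  have hKKne : (K' ∪ -K').Nonempty := (hKne.mono subset_union_left).mono subset_union_left
  have hA₁c : IsCompact A₁ := compact_hull (hK'c.union hK'c.neg) hKKne
  have hA₁A : A₁ ⊆ A := by
    apply convexHull_min _ hAconv
    intro x hx
    rcases hx with hx | hx
    · exact hK'A hx
    · have := hAs _ (hK'A hx)
      simpa using this
  have hA₁conv : Convex ℝ A₁ := convex_convexHull ℝ _
  have hA₁s : ∀ x ∈ A₁, -x ∈ A₁ := by
    intro x hx
    have h1 : -x ∈ -A₁ := by simpa using hx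
    rw [hA₁, ← convexHull_neg] at h1
    have h2 : -(K' ∪ -K') = K' ∪ -K' := by
      rw [union_neg, neg_neg, union_comm]
    rwa [h2] at h1
  have hK'A₁ : K' ⊆ A₁ := subset_union_left.trans (subset_convexHull ℝ _)
  have hA₁0 : (0 : E n) ∈ A₁ := by
    obtain ⟨x, hx⟩ := hKne
    have hx1 : x ∈ A₁ := hK'A₁ (Or.inl hx)
    have := hA₁conv hx1 (hA₁s x hx1) (by norm_num : (0:ℝ) ≤ 1/2) (by norm_num : (0:ℝ) ≤ 1/2)
      (by norm_num)
    simpa using this
  have hA₁m : μ.real A / 2 ≤ μ.real A₁ :=
    hK.le.trans (measureReal_mono (subset_union_left.trans hK'A₁) (measure_ne_top μ _))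
  refine ⟨A₁, hA₁A, hA₁c, hA₁0, hA₁m, ?_⟩
  set D := G μ q (4 * Real.exp 9) with hD
  have hDc : IsCompact D := isCompact_G _ _
  set W := L • A₁ + D with hW
  have hWc : IsCompact W := (hA₁c.smul L).add hDc
  -- thickenings
  have hthick : ∀ ε : ℝ, 0 < ε → 1 - Real.exp (-q) ≤ μ.real (Metric.cthickening (L * ε) W) := by
    intro ε hε
    set Aε := A₁ + Metric.closedBall (0 : E n) ε with hAε
    have h1c : IsCompact Aε := hA₁c.add (isCompact_closedBall _ _)
    have h1conv : Convex ℝ Aε := hA₁conv.add (convex_closedBall _ _)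
    have h1s : ∀ x ∈ Aε, -x ∈ Aε := by
      rintro _ ⟨a, ha, b, hb, rfl⟩
      refine ⟨-a, hA₁s a ha, -b, ?_, ?_⟩
      · simpa using hb
      · show -a + -b = -(a + b)
        abel
    have h1i : (interior Aε).Nonempty := by
      refine ⟨0, mem_interior_iff_mem_nhds.2 ?_⟩
      refine Filter.mem_of_superset (Metric.closedBall_mem_nhds (0 : E n) hε) ?_
      intro x hx
      exact ⟨0, hA₁0, x, hx, by simp⟩
    have hsubε : A₁ ⊆ Aε := by
      intro x hx
      exact ⟨x, hx, 0, by simp [hε.le], by simp⟩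
    have h1m : ∀ j < J, Real.exp (-((3/2:ℝ) ^ j * q)) ≤ μ.real (d j • Aε) := by
      intro j hj
      have h2 : Kj j ⊆ d j • Aε := by
        intro x hx
        refine ⟨(d j)⁻¹ • x, hsubε (hK'A₁ (Or.inr ?_)), ?_⟩
        · simp only [mem_iUnion]
          exact ⟨j, Finset.mem_range.2 hj, x, hx, rfl⟩
        · show d j • (d j)⁻¹ • x = x
          rw [smul_smul, mul_inv_cancel₀ (hd j hj).ne', one_smul]
      have h3 := measureReal_mono (μ := μ) h2 (measure_ne_top μ _)
      have h4 := (hKjAm j hj).2
      have h5 := hA j hj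
      linarith
    have h4 := MT_d hsym hlc h1c h1conv h1s h1i hq hd h1m hJ hL0 hL
    rw [← hD] at h4
    have h5 : L • Aε + D ⊆ Metric.cthickening (L * ε) W := by
      rw [← hWc.add_closedBall_zero (by positivity)]
      rintro _ ⟨_, ⟨_, ⟨a, ha, b, hb, rfl⟩, rfl⟩, d, hd, rfl⟩
      refine ⟨L • a + d, ⟨L • a, ⟨a, ha, rfl⟩, d, hd, rfl⟩, L • b, ?_, ?_⟩
      · rw [mem_closedBall_zero_iff] at hb ⊢
        rw [norm_smul, Real.norm_eq_abs, abs_of_pos hL0]
        exact mul_le_mul_of_nonneg_left hb hL0.le
      · simp only [smul_add]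
        abel
    have hc : μ.real (L • Aε + D)ᶜ = 1 - μ.real (L • Aε + D) := by
      rw [measureReal_compl ((h1c.smul L).add hDc).measurableSet]
      simp
    have h6 := measureReal_mono (μ := μ) h5 (measure_ne_top μ _)
    linarith
  have hlim := tendsto_measure_cthickening_of_isClosed (μ := μ) (s := W)
    ⟨1, one_pos, measure_ne_top μ _⟩ hWc.isClosed
  have hlim2 : Tendsto (fun r => μ.real (Metric.cthickening r W)) (𝓝[>] 0) (𝓝 (μ.real W)) :=
    ((ENNReal.tendsto_toReal (measure_ne_top μ W)).comp hlim).mono_left nhdsWithin_le_nhds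
  have hge : 1 - Real.exp (-q) ≤ μ.real W := by
    refine ge_of_tendsto hlim2 ?_
    filter_upwards [self_mem_nhdsWithin] with r hr
    have h7 := hthick (r / L) (div_pos hr hL0)
    rwa [mul_div_cancel₀ _ hL0.ne'] at h7
  have hcW : μ.real Wᶜ = 1 - μ.real W := by
    rw [measureReal_compl hWc.measurableSet]
    simp
  linarith

/-- growth of symmetric convex sets, with the small ball function of the set -/
theorem main_sym_d [IsProbabilityMeasure μ] (hsym : μ.map (fun x => -x) = μ) (hlc : LC μ)
    {A : Set (E n)} (hAm : MeasurableSet A) (hAconv : Convex ℝ A) (hAs : ∀ x ∈ A, -x ∈ A)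
    {p : ℝ} (hp : 2 ≤ p) {d : ℕ → ℝ} {J : ℕ} (hJ : (n:ℝ) ≤ (3/2:ℝ) ^ J * p)
    (hd : ∀ j < J, 0 < d j)
    (hball : ∀ j < J, μ.real A * Real.exp (-((3/2:ℝ) ^ j * p)) ≤ μ.real (d j • A))
    {Λ : ℝ} (hΛ4 : 4 ≤ Λ) (hL : 4 * ∑ j ∈ Finset.range J, d j ≤ Λ) :
    8 * Real.exp p * μ.real A * (1 - μ.real (Λ • A + G μ p 3000000)) ≤
      (1 - μ.real A) * μ.real (Λ • A + G μ p 3000000) := by
  have hp0 : 0 < p := by linarith
  have hΛ0 : 0 < Λ := by linarith
  set A' := Λ • A + G μ p 3000000 with hA'
  set a := μ.real A with ha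
  set a' := μ.real A' with ha'
  have ha1 : a ≤ 1 := measureReal_le_one
  have ha'1 : a' ≤ 1 := measureReal_le_one
  have ha'0 : 0 ≤ a' := measureReal_nonneg
  rcases (measureReal_nonneg (μ := μ) (s := A)).eq_or_lt with h0 | hpos
  · rw [← ha] at h0
    rw [← h0]
    simpa using ha'0
  have hep := Real.exp_pos p
  have hene := Real.exp_pos (-p)
  set u := -Real.log a with hu
  have hau : a = Real.exp (-u) := by rw [hu, neg_neg, Real.exp_log hpos]
  have hu0' : 0 ≤ u := by
    rw [hu]
    have := Real.log_nonpos hpos.le ha1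
    linarith
  have he1 : (2:ℝ) ≤ Real.exp 1 := by
    have := Real.exp_one_gt_d9
    linarith
  -- the small ball hypothesis at the exponent q
  have hJq : ∀ q : ℝ, p ≤ q → (n:ℝ) ≤ (3/2:ℝ) ^ J * q := fun q hpq =>
    hJ.trans (mul_le_mul_of_nonneg_left hpq (by positivity))
  have hAq : ∀ q : ℝ, u + 1 ≤ q - p → ∀ j < J,
      2 * Real.exp (-((3/2:ℝ) ^ j * q)) ≤ μ.real (d j • A) := by
    intro q hqp j hj
    refine le_trans ?_ (hball j hj)
    rw [hau, ← Real.exp_add]
    calc 2 * Real.exp (-((3/2:ℝ) ^ j * q)) ≤ Real.exp 1 * Real.exp (-((3/2:ℝ) ^ j * q)) :=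
          mul_le_mul_of_nonneg_right he1 (Real.exp_pos _).le
      _ = Real.exp (1 + -((3/2:ℝ) ^ j * q)) := by rw [← Real.exp_add]
      _ ≤ Real.exp (-u + -((3/2:ℝ) ^ j * p)) := by
          apply Real.exp_le_exp.2
          have h1 : (1:ℝ) ≤ (3/2:ℝ) ^ j := one_le_pow₀ (by norm_num)
          have h2 : 1 * (q - p) ≤ (3/2:ℝ) ^ j * (q - p) :=
            mul_le_mul_of_nonneg_right h1 (by linarith)
          linarith
  rcases le_or_gt u (2 * p + 5) with hup | hup
  · -- large or middle sets
    rcases le_or_gt (16 * Real.exp (-p - 8)) (1 - a) with hmid | hbig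
    · -- middle
      have hq : 1 ≤ 3 * p + 6 := by linarith
      obtain ⟨A₁, hA₁A, hA₁c, hA₁0, _, hA₁⟩ := MT2_d hsym hlc hAm hAconv hAs hq hpos hd
        (hAq (3 * p + 6) (by linarith)) (hJq _ (by linarith)) hΛ0 hL
      have hA0 := hA₁A hA₁0
      have hsub : Λ • A₁ + G μ (3 * p + 6) (4 * Real.exp 9) ⊆ A' := by
        apply add_subset_add
        · exact smul_set_mono hA₁A
        · apply G_subset hsym hlc (by linarith) (by linarith) (by positivity)
          have h1 : (3 * p + 6) / p ≤ 6 := by rw [div_le_iff₀ hp0]; linarith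
          calc 2 * Real.exp 2 * ((3 * p + 6) / p) * (4 * Real.exp 9)
              ≤ 2 * Real.exp 2 * 6 * (4 * Real.exp 9) := by gcongr
            _ = 48 * (Real.exp 2 * Real.exp 9) := by ring
            _ = 48 * Real.exp 11 := by rw [← Real.exp_add]; norm_num
            _ ≤ 3000000 := by have := exp_eleven; linarith
      have hYc : IsCompact (Λ • A₁ + G μ (3 * p + 6) (4 * Real.exp 9)) :=
        (hA₁c.smul _).add (isCompact_G _ _)
      have hcY : μ.real (Λ • A₁ + G μ (3 * p + 6) (4 * Real.exp 9))ᶜ =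
          1 - μ.real (Λ • A₁ + G μ (3 * p + 6) (4 * Real.exp 9)) := by
        rw [measureReal_compl hYc.measurableSet]
        simp
      have hY := measureReal_mono (μ := μ) hsub (measure_ne_top μ _)
      have h0 : Real.exp (-(3 * p + 6)) ≤ Real.exp (-(2 * p + 8)) :=
        Real.exp_le_exp.2 (by linarith)
      have h1 : 1 - a' ≤ Real.exp (-(2 * p + 8)) := by linarith
      have h2 : Real.exp (-(2 * p + 8)) = Real.exp (-p - 8) * Real.exp (-p) := by
        rw [← Real.exp_add]; congr 1; ring
      have h3 : Real.exp p * Real.exp (-p) = 1 := by rw [← Real.exp_add]; simp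
      have h4 : Real.exp (-p) ≤ 1 := by rw [Real.exp_le_one_iff]; linarith
      have h5 : Real.exp (-p - 8) ≤ 1 / 2 := by
        have h6 : Real.exp (-p - 8) * Real.exp 8 = Real.exp (-p) := by
          rw [← Real.exp_add]; congr 1; ring
        have h7 := exp_eight
        have h8 := Real.exp_pos (-p - 8)
        nlinarith
      have h9 : Real.exp (-(2 * p + 8)) ≤ 1 / 2 := by
        rw [h2]
        have := Real.exp_pos (-p - 8)
        nlinarith
      have h10 : 1 / 2 ≤ a' := by linarith
      calc 8 * Real.exp p * a * (1 - a') ≤ 8 * Real.exp p * 1 * (1 - a') := by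
            apply mul_le_mul_of_nonneg_right _ (by linarith)
            apply mul_le_mul_of_nonneg_left ha1 (by positivity)
        _ ≤ 8 * Real.exp p * 1 * Real.exp (-(2 * p + 8)) := by
            apply mul_le_mul_of_nonneg_left h1 (by positivity)
        _ = 8 * Real.exp (-p - 8) * (Real.exp p * Real.exp (-p)) := by rw [h2]; ring
        _ = 8 * Real.exp (-p - 8) := by rw [h3, mul_one]
        _ ≤ (1 - a) * (1 / 2) := by linarith
        _ ≤ (1 - a) * a' := mul_le_mul_of_nonneg_left h10 (by linarith)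
    · -- large
      set c := 1 - a with hc
      have hc0 : 0 ≤ c := by linarith
      have h7 := exp_eight
      have h8 := Real.exp_pos (-p - 8)
      have hcsmall : 32 * Real.exp p * c ≤ 1 := by
        have h1 : Real.exp p * Real.exp (-p - 8) * Real.exp 8 = 1 := by
          rw [← Real.exp_add, ← Real.exp_add]
          have : p + (-p - 8) + 8 = 0 := by ring
          rw [this, Real.exp_zero]
        have h2 : 0 < Real.exp p * Real.exp (-p - 8) := by positivity
        have h3 : Real.exp p * Real.exp (-p - 8) * 2900 ≤ 1 := by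
          calc _ ≤ Real.exp p * Real.exp (-p - 8) * Real.exp 8 :=
                mul_le_mul_of_nonneg_left h7 h2.le
            _ = 1 := h1
        have h4 : Real.exp p * c ≤ Real.exp p * (16 * Real.exp (-p - 8)) :=
          mul_le_mul_of_nonneg_left hbig.le hep.le
        nlinarith
      have hep3 : 3 ≤ Real.exp p := by
        have := Real.add_one_le_exp p
        linarith
      have hc96 : 96 * c ≤ 1 := by nlinarith
      have haHalf : 1 / 2 < a := by linarith
      obtain ⟨K', hK'A, hK'c, hK'⟩ := exists_compact_real hAm haHalf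
      obtain ⟨H, hAH, hHm, hHμ⟩ := exists_measurable_superset μ A'
      have hHr : a' = μ.real H := by rw [ha']; simp [Measure.real, hHμ]
      have hcH : μ.real Hᶜ = 1 - μ.real H := by
        rw [measureReal_compl hHm]; simp
      have hcA : μ.real Aᶜ = c := by
        rw [measureReal_compl hAm]; simp [hc, ha]
      have hA0 : (0 : E n) ∈ A := by
        obtain ⟨x, hx⟩ : A.Nonempty := by
          rw [nonempty_iff_ne_empty]
          intro h
          rw [h] at hpos
          simp at hpos
        have := hAconv hx (hAs x hx) (by norm_num : (0:ℝ) ≤ 1/2) (by norm_num : (0:ℝ) ≤ 1/2)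
          (by norm_num)
        simpa using this
      have key : ∀ K : Set (E n), K ⊆ Hᶜ → IsCompact K → μ.real K ≤ 2 * c ^ 2 := by
        intro K hKH hKc
        have h1 := hlc.half hKc hK'c (U := Aᶜ) (by
          intro x hx y hy hz
          apply hKH hx
          apply hAH
          set z := (1/2:ℝ) • x + (1/2:ℝ) • y with hzdef
          have hxz : x = (3:ℝ) • ((2/3:ℝ) • z + (1/3:ℝ) • (-y)) := by
            rw [hzdef]; module
          refine ⟨x, ?_, 0, zero_mem_G (by norm_num), by simp⟩
          rw [hxz]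
          exact smul_mem_dil hAconv hA0 (by norm_num) (by linarith) hΛ0
            (hAconv hz (hAs y (hK'A hy)) (by norm_num) (by norm_num) (by norm_num)))
        rw [hcA] at h1
        have h2 : 0 ≤ μ.real K := measureReal_nonneg
        nlinarith
      have h9 : μ.real Hᶜ ≤ 2 * c ^ 2 := by
        refine le_of_forall_pos_le_add fun ε hε => ?_
        obtain ⟨K, hKH, hKc, hK⟩ := hHm.compl.exists_isCompact_lt_add (measure_ne_top μ _)
          (ε := ENNReal.ofReal ε) (by simpa using hε)
        have h1 := ENNReal.toReal_mono (by finiteness) hK.le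
        rw [ENNReal.toReal_add (measure_ne_top μ _) (by simp), ENNReal.toReal_ofReal hε.le] at h1
        have h2 := key K hKH hKc
        have h3 : μ.real Hᶜ ≤ μ.real K + ε := h1
        linarith
      have h10 : 1 - a' ≤ 2 * c ^ 2 := by rw [hHr, ← hcH]; exact h9
      have h11 : 1 / 2 ≤ a' := by nlinarith
      calc 8 * Real.exp p * a * (1 - a') ≤ 8 * Real.exp p * 1 * (1 - a') := by
            apply mul_le_mul_of_nonneg_right _ (by linarith)
            apply mul_le_mul_of_nonneg_left ha1 (by positivity)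
        _ ≤ 8 * Real.exp p * 1 * (2 * c ^ 2) := mul_le_mul_of_nonneg_left h10 (by positivity)
        _ = (32 * Real.exp p * c) * (c / 2) := by ring
        _ ≤ 1 * (c / 2) := mul_le_mul_of_nonneg_right hcsmall (by positivity)
        _ = c * (1 / 2) := by ring
        _ ≤ c * a' := mul_le_mul_of_nonneg_left h11 hc0
  · -- small sets
    have hu0 : 0 < u := by linarith
    set q := u + p + 1 with hqdef
    have hq : 1 ≤ q := by linarith
    obtain ⟨A₁, hA₁A, hA₁c, hA₁0, hA₁m, hA₁⟩ := MT2_d hsym hlc hAm hAconv hAs hq hpos hd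
      (hAq q (by linarith)) (hJq q (by linarith)) hΛ0 hL
    have hA0 := hA₁A hA₁0
    set W := Λ • A₁ + G μ q (4 * Real.exp 9) with hW
    have hWc : IsCompact W := (hA₁c.smul _).add (isCompact_G _ _)
    have hcW : μ.real Wᶜ = 1 - μ.real W := by
      rw [measureReal_compl hWc.measurableSet]
      simp
    have hW2 : 1 / 2 ≤ μ.real W := by
      have h1 : Real.exp (-q) ≤ Real.exp (-1) := Real.exp_le_exp.2 (by linarith)
      have h2 : Real.exp (-1) * Real.exp 1 = 1 := by rw [← Real.exp_add]; simp
      have h3 := Real.exp_pos (-1)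
      have h4 : Real.exp (-1) ≤ 1 / 2 := by nlinarith
      linarith
    set s := (p + 4) / u with hs
    have hs0 : 0 < s := by positivity
    have hs1 : s < 1 := by rw [hs, div_lt_one hu0]; linarith
    have key := hlc.closed hA₁c.isClosed hWc.isClosed (t := 1 - s) (by linarith) (by linarith)
      (U := A') (by
        rintro x hx _ ⟨_, ⟨y, hy, rfl⟩, z, hz, rfl⟩
        refine ⟨(1 - s) • x + s • (Λ • y), ?_, s • z, ?_, ?_⟩
        · have hconv : Convex ℝ (Λ • A) := hAconv.smul Λ
          have hx' : x ∈ Λ • A := by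
            have := smul_mem_dil hAconv hA0 zero_le_one (by linarith : (1:ℝ) ≤ Λ) hΛ0 (hA₁A hx)
            simpa using this
          have hy' : Λ • y ∈ Λ • A := ⟨y, hA₁A hy, rfl⟩
          exact hconv hx' hy' (by linarith) hs0.le (by ring)
        · have h1 : s • z ∈ G μ q (s * (4 * Real.exp 9)) := by
            intro v
            rw [inner_smul_right, abs_mul, abs_of_pos hs0, mul_assoc]
            exact mul_le_mul_of_nonneg_left (hz v) hs0.le
          refine G_subset hsym hlc (by linarith) (by linarith) (by positivity) ?_ h1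
          have h2 : q / p * s ≤ 9 / 2 := by
            have h3 : q / p * s = q / u * ((p + 4) / p) := by
              rw [hs]; field_simp
            have h4 : q / u ≤ 3 / 2 := by
              rw [div_le_div_iff₀ hu0 (by norm_num)]; linarith
            have h5 : (p + 4) / p ≤ 3 := by rw [div_le_iff₀ hp0]; linarith
            rw [h3]
            calc q / u * ((p + 4) / p) ≤ 3 / 2 * 3 :=
                  mul_le_mul h4 h5 (by positivity) (by norm_num)
              _ = 9 / 2 := by norm_num
          calc 2 * Real.exp 2 * (q / p) * (s * (4 * Real.exp 9))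
              = 8 * (Real.exp 2 * Real.exp 9) * (q / p * s) := by ring
            _ ≤ 8 * (Real.exp 2 * Real.exp 9) * (9 / 2) :=
                mul_le_mul_of_nonneg_left h2 (by positivity)
            _ = 36 * Real.exp 11 := by rw [← Real.exp_add]; norm_num; ring
            _ ≤ 3000000 := by have := exp_eleven; linarith
        · show (1 - s) • x + s • Λ • y + s • z = (1 - s) • x + (1 - (1 - s)) • (Λ • y + z)
          module)
    have key2 := ENNReal.toReal_mono (measure_ne_top μ _) key
    rw [ENNReal.toReal_mul, ← ENNReal.toReal_rpow, ← ENNReal.toReal_rpow] at key2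
    have key3 : μ.real A₁ ^ (1 - s) * μ.real W ^ (1 - (1 - s)) ≤ a' := key2
    have e1 : 1 - (1 - s) = s := by ring
    rw [e1] at key3
    have h1 : (a / 2) ^ (1 - s) * (1 / 2 : ℝ) ^ s ≤ a' := by
      refine le_trans ?_ key3
      apply mul_le_mul
      · exact Real.rpow_le_rpow (by positivity) hA₁m (by linarith)
      · exact Real.rpow_le_rpow (by norm_num) hW2 hs0.le
      · positivity
      · positivity
    have h2 : (a / 2) ^ (1 - s) * (1 / 2 : ℝ) ^ s = a ^ (1 - s) / 2 := by
      rw [div_eq_mul_one_div a, Real.mul_rpow hpos.le (by norm_num), mul_assoc,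
        ← Real.rpow_add (by norm_num)]
      have : 1 - s + s = 1 := by ring
      rw [this, Real.rpow_one]
      ring
    have h3 : a ^ (1 - s) = a * (Real.exp p * Real.exp 4) := by
      rw [hau, ← Real.exp_mul, ← Real.exp_add, ← Real.exp_add]
      congr 1
      have : u * s = p + 4 := by rw [hs]; field_simp
      linear_combination this
    rw [h2, h3] at h1
    have h4 := exp_four
    have h5 : 27 * (Real.exp p * a) ≤ a' := by
      have h6 : 0 < Real.exp p * a := by positivity
      nlinarith
    have h7 : a ≤ 1 / 2 := by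
      rw [hau]
      have h8 : Real.exp (-u) ≤ Real.exp (-1) := Real.exp_le_exp.2 (by linarith)
      have h9 : Real.exp (-1) * Real.exp 1 = 1 := by rw [← Real.exp_add]; simp
      have h10 := Real.exp_pos (-1)
      nlinarith
    have h8 : 8 * Real.exp p * a * (1 - a') ≤ 8 * Real.exp p * a := by
      have : 0 ≤ 8 * Real.exp p * a := by positivity
      nlinarith
    have h9 : a' / 2 ≤ (1 - a) * a' := by nlinarith
    linarith

end Pool.CIP
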