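import Pool.Agent.CIQ.R

set_option autoImplicit false

open MeasureTheory Pointwise Set Filter Topology

namespace Pool.CIP

variable {n : ℕ} {μ : Measure (E n)}

/-- the theorem for convex sets, with the small ball function of the symmetrised set -/
theorem main_convex_d [IsProbabilityMeasure μ] (hsym : μ.map (fun x => -x) = μ) (hlc : LC μ)
    {A : Set (E n)} (hAm : MeasurableSet A) (hAconv : Convex ℝ A)
    (hA : A = -A ∨ 3 / 4 ≤ μ.real A) {p : ℝ} (hp : 2 ≤ p) {d : ℕ → ℝ} {J : ℕ}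
    (hJ : (n:ℝ) ≤ (3/2:ℝ) ^ J * p) (hd : ∀ j < J, 0 < d j)
    (hball : ∀ j < J,
      μ.real (A ∩ -A) * Real.exp (-((3/2:ℝ) ^ j * p)) ≤ μ.real (d j • (A ∩ -A)))
    {Λ : ℝ} (hΛ4 : 4 ≤ Λ) (hL : 4 * ∑ j ∈ Finset.range J, d j ≤ Λ) :
    2 * Real.exp p * μ.real A * (1 - μ.real (Λ • A + (3000000:ℝ) • Z μ p)) ≤
      (1 - μ.real A) * μ.real (Λ • A + (3000000:ℝ) • Z μ p) := by
  have hp0 : 0 < p := by linarith
  rw [smul_Z_eq hp0 (by norm_num)]
  have hep := Real.exp_pos p
  set A' := Λ • A + G μ p 3000000 with hA'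
  have ha0 : 0 ≤ μ.real A := measureReal_nonneg
  have ha1 : μ.real A ≤ 1 := measureReal_le_one
  have ha'0 : 0 ≤ μ.real A' := measureReal_nonneg
  have ha'1 : μ.real A' ≤ 1 := measureReal_le_one
  rcases hA with hs | h34
  · have hAA : A ∩ -A = A := by rw [← hs, inter_self]
    rw [hAA] at hball
    have h1 := main_sym_d hsym hlc hAm hAconv (fun x hx => by
      rw [hs] at hx; exact hx) hp hJ hd hball hΛ4 hL
    rw [← hA'] at h1
    have h2 : 0 ≤ Real.exp p * μ.real A * (1 - μ.real A') := by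
      apply mul_nonneg (by positivity); linarith
    nlinarith
  · set As := A ∩ -A with hAs
    have hAsm : MeasurableSet As := hAm.inter hAm.neg
    have hAsconv : Convex ℝ As := hAconv.inter hAconv.neg
    have hAss : ∀ x ∈ As, -x ∈ As := by
      intro x hx
      refine ⟨hx.2, ?_⟩
      rw [Set.mem_neg, neg_neg]
      exact hx.1
    have h1 := main_sym_d hsym hlc hAsm hAsconv hAss hp hJ hd hball hΛ4 hL
    set As' := Λ • As + G μ p 3000000 with hAs'
    have hsub : As' ⊆ A' := add_subset_add_right (smul_set_mono inter_subset_left)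
    have h2 : μ.real As' ≤ μ.real A' := measureReal_mono hsub (measure_ne_top μ _)
    have h3 : 2 * μ.real A - 1 ≤ μ.real As := by
      have h4 : μ.real (-A) = μ.real A := by
        have := measure_neg hsym A hAm
        simp only [Measure.real]
        congr 1
      have h5 : μ.real (A ∪ -A) ≤ 1 := measureReal_le_one
      have h6 := measureReal_union_add_inter (μ := μ) (s := A) hAm.neg
      rw [h4] at h6
      linarith
    have hs0 : 0 ≤ μ.real As := measureReal_nonneg
    have hs'0 : 0 ≤ μ.real As' := measureReal_nonneg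
    have h7 : 8 * Real.exp p * μ.real As * (1 - μ.real A') ≤
        8 * Real.exp p * μ.real As * (1 - μ.real As') :=
      mul_le_mul_of_nonneg_left (by linarith) (by positivity)
    have h8 : (1 - μ.real As) * μ.real As' ≤ 2 * (1 - μ.real A) * μ.real A' := by
      apply mul_le_mul (by linarith) h2 hs'0 (by linarith)
    have h9 : μ.real A / 2 ≤ μ.real As := by linarith
    have h10 : 8 * Real.exp p * (μ.real A / 2) * (1 - μ.real A') ≤
        8 * Real.exp p * μ.real As * (1 - μ.real A') := by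
      apply mul_le_mul_of_nonneg_right _ (by linarith)
      exact mul_le_mul_of_nonneg_left h9 (by positivity)
    linarith

lemma log_three_halves : (2/5:ℝ) ≤ Real.log (3/2) := by
  rw [Real.le_log_iff_exp_le (by norm_num)]
  have h1 : Real.exp (2/5) ^ 5 = Real.exp 1 ^ 2 := by
    rw [← Real.exp_nat_mul, ← Real.exp_nat_mul]; norm_num
  have h2 := Real.exp_one_lt_d9
  have h3 : Real.exp 1 ^ 2 ≤ 2.7182818286 ^ 2 := by gcongr
  have h4 : Real.exp (2/5) ^ 5 ≤ (3/2:ℝ) ^ 5 := by
    rw [h1]; refine h3.trans ?_; norm_num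
  exact le_of_pow_le_pow_left₀ (by norm_num) (by norm_num) h4

/-- the noises of a set with polynomial small ball function -/
noncomputable def pd (K a : ℝ) (j : ℕ) : ℝ := min 1 ((K * (2/3:ℝ) ^ j) ^ (1 / a))

lemma pd_sum {K a : ℝ} (hK : 1 ≤ K) (ha : 0 < a) (J : ℕ) :
    4 * ∑ j ∈ Finset.range J, pd K a j ≤ 8 + 10 * (a + Real.log K) := by
  have hl := log_three_halves
  have hl0 : 0 < Real.log (3/2) := by linarith
  have hK0 : 0 < K := by linarith
  have hlK : 0 ≤ Real.log K := Real.log_nonneg hK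
  set x : ℝ := (2/3:ℝ) ^ (1 / a) with hx
  have hx0 : 0 < x := Real.rpow_pos_of_pos (by norm_num) _
  have hx1 : x < 1 := Real.rpow_lt_one (by norm_num) (by norm_num) (by positivity)
  set y : ℝ := Real.log (3/2) / a with hy
  have hy0 : 0 < y := by positivity
  have hxy : x = Real.exp (-y) := by
    rw [hx, Real.rpow_def_of_pos (by norm_num)]
    congr 1
    have h1 : Real.log (2/3) = -Real.log (3/2) := by
      rw [← Real.log_inv]; norm_num
    rw [h1, hy]
    ring
  have hgeo : 1 / (1 - x) ≤ 1 + a / Real.log (3/2) := by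
    have h1 : y + 1 ≤ Real.exp y := Real.add_one_le_exp y
    have h2 : Real.exp y * x = 1 := by rw [hxy, ← Real.exp_add]; simp
    have h3 : (y + 1) * x ≤ 1 := by
      calc (y + 1) * x ≤ Real.exp y * x := mul_le_mul_of_nonneg_right h1 hx0.le
        _ = 1 := h2
    have h4 : a / Real.log (3/2) = 1 / y := by rw [hy]; field_simp
    rw [h4, div_le_iff₀ (by linarith)]
    have h5 : (1 + 1 / y) * (1 - x) = 1 + (1 - (y + 1) * x) / y := by field_simp; ring
    rw [h5]
    have : 0 ≤ (1 - (y + 1) * x) / y := div_nonneg (by linarith) hy0.le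
    linarith
  set j1 := ⌈Real.log K / Real.log (3/2)⌉₊ with hj1
  have hj1le : (j1:ℝ) ≤ 1 + Real.log K / Real.log (3/2) := by
    have := Nat.ceil_lt_add_one (a := Real.log K / Real.log (3/2)) (by positivity)
    linarith
  have hKj : K * (2/3:ℝ) ^ j1 ≤ 1 := by
    have h1 : Real.log K ≤ j1 * Real.log (3/2) := by
      have := Nat.le_ceil (Real.log K / Real.log (3/2))
      rwa [div_le_iff₀ hl0] at this
    have h2 : K ≤ (3/2:ℝ) ^ j1 := by
      rw [← Real.exp_log hK0]
      calc Real.exp (Real.log K) ≤ Real.exp (j1 * Real.log (3/2)) := Real.exp_le_exp.2 h1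
        _ = (3/2:ℝ) ^ j1 := by rw [Real.exp_nat_mul, Real.exp_log (by norm_num)]
    calc K * (2/3:ℝ) ^ j1 ≤ (3/2:ℝ) ^ j1 * (2/3:ℝ) ^ j1 :=
          mul_le_mul_of_nonneg_right h2 (by positivity)
      _ = 1 := by rw [← mul_pow]; norm_num
  have hterm : ∀ i : ℕ, pd K a (j1 + i) ≤ x ^ i := by
    intro i
    unfold pd
    refine (min_le_right _ _).trans ?_
    have h1 : K * (2/3:ℝ) ^ (j1 + i) ≤ (2/3:ℝ) ^ i := by
      rw [pow_add, ← mul_assoc]
      calc K * (2/3:ℝ) ^ j1 * (2/3:ℝ) ^ i ≤ 1 * (2/3:ℝ) ^ i :=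
            mul_le_mul_of_nonneg_right hKj (by positivity)
        _ = _ := one_mul _
    calc (K * (2/3:ℝ) ^ (j1 + i)) ^ (1 / a) ≤ ((2/3:ℝ) ^ i) ^ (1 / a) :=
          Real.rpow_le_rpow (by positivity) h1 (by positivity)
      _ = x ^ i := by
          rw [hx, ← Real.rpow_natCast, ← Real.rpow_natCast, ← Real.rpow_mul (by norm_num),
            ← Real.rpow_mul (by norm_num), mul_comm]
  have hnn : ∀ j, 0 ≤ pd K a j := fun j => le_min zero_le_one (by positivity)
  have hsum : ∑ j ∈ Finset.range J, pd K a j ≤ j1 + 1 / (1 - x) := by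
    calc ∑ j ∈ Finset.range J, pd K a j ≤ ∑ j ∈ Finset.range (j1 + J), pd K a j :=
          Finset.sum_le_sum_of_subset_of_nonneg (Finset.range_mono (by omega))
            (fun j _ _ => hnn j)
      _ = ∑ j ∈ Finset.range j1, pd K a j + ∑ i ∈ Finset.range J, pd K a (j1 + i) :=
          Finset.sum_range_add _ _ _
      _ ≤ ∑ j ∈ Finset.range j1, (1:ℝ) + ∑ i ∈ Finset.range J, x ^ i :=
          add_le_add (Finset.sum_le_sum fun j _ => min_le_left _ _)
            (Finset.sum_le_sum fun i _ => hterm i)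
      _ = j1 + ∑ i ∈ Finset.range J, x ^ i := by simp
      _ ≤ j1 + 1 / (1 - x) := by
          have h1 : (∑ i ∈ Finset.range J, x ^ i) * (1 - x) ≤ 1 := by
            have h2 := geom_sum_mul_neg x J
            rw [h2]
            have : 0 ≤ x ^ J := by positivity
            linarith
          have h3 : ∑ i ∈ Finset.range J, x ^ i ≤ 1 / (1 - x) := by
            rw [le_div_iff₀ (by linarith)]; exact h1
          linarith
  have h5 : a / Real.log (3/2) ≤ 5/2 * a := by
    rw [div_le_iff₀ hl0]; nlinarith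
  have h6 : Real.log K / Real.log (3/2) ≤ 5/2 * Real.log K := by
    rw [div_le_iff₀ hl0]; nlinarith
  linarith

/-- sets with a polynomial small ball function: no dependence on the dimension -/
theorem main_convex_poly [IsProbabilityMeasure μ] (hsym : μ.map (fun x => -x) = μ) (hlc : LC μ)
    {A : Set (E n)} (hAm : MeasurableSet A) (hAconv : Convex ℝ A)
    (hA : A = -A ∨ 3 / 4 ≤ μ.real A) {p : ℝ} (hp : 2 ≤ p) {K a : ℝ} (hK : 1 ≤ K) (ha : 0 < a)
    (hball : ∀ t : ℝ, 0 < t → t ≤ 1 →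
      μ.real (A ∩ -A) * Real.exp (-(K * p * t ^ (-a))) ≤ μ.real (t • (A ∩ -A))) :
    2 * Real.exp p * μ.real A *
        (1 - μ.real ((8 + 10 * (a + Real.log K)) • A + (3000000:ℝ) • Z μ p)) ≤
      (1 - μ.real A) * μ.real ((8 + 10 * (a + Real.log K)) • A + (3000000:ℝ) • Z μ p) := by
  have hK0 : 0 < K := by linarith
  have hlK : 0 ≤ Real.log K := Real.log_nonneg hK
  obtain ⟨J, hJ⟩ : ∃ J : ℕ, (n:ℝ) ≤ (3/2:ℝ) ^ J * p := by
    obtain ⟨J, hJ⟩ := pow_unbounded_of_one_lt (n:ℝ) (by norm_num : (1:ℝ) < 3/2)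
    refine ⟨J, ?_⟩
    have : (3/2:ℝ) ^ J * 1 ≤ (3/2:ℝ) ^ J * p :=
      mul_le_mul_of_nonneg_left (by linarith) (by positivity)
    linarith
  refine main_convex_d hsym hlc hAm hAconv hA hp (d := pd K a) hJ
    (fun j _ => lt_min one_pos (Real.rpow_pos_of_pos (by positivity) _)) ?_ (by linarith)
    (pd_sum hK ha J)
  intro j _
  set y : ℝ := K * (2/3:ℝ) ^ j with hy
  have hy0 : 0 < y := by positivity
  have e0 : pd K a j = min 1 (y ^ (1 / a)) := rfl
  rcases le_or_gt y 1 with h | h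
  · have h1 : y ^ (1 / a) ≤ 1 := Real.rpow_le_one hy0.le h (by positivity)
    have h2 : pd K a j = y ^ (1 / a) := by rw [e0]; exact min_eq_right h1
    have h3 := hball (y ^ (1 / a)) (Real.rpow_pos_of_pos hy0 _) h1
    have h4 : K * p * (y ^ (1 / a)) ^ (-a) = (3/2:ℝ) ^ j * p := by
      rw [← Real.rpow_mul hy0.le]
      have h5 : 1 / a * -a = -1 := by field_simp
      rw [h5, Real.rpow_neg_one, hy]
      have h6 : ((2/3:ℝ) ^ j)⁻¹ = (3/2:ℝ) ^ j := by
        rw [← inv_pow]; norm_num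
      rw [mul_inv, h6]
      field_simp
    rw [h4] at h3
    rw [h2]
    exact h3
  · have h1 : 1 ≤ y ^ (1 / a) := Real.one_le_rpow h.le (by positivity)
    have h2 : pd K a j = 1 := by rw [e0]; exact min_eq_left h1
    rw [h2, one_smul]
    have h3 : Real.exp (-((3/2:ℝ) ^ j * p)) ≤ 1 := by
      rw [Real.exp_le_one_iff]
      have : 0 ≤ (3/2:ℝ) ^ j * p := by positivity
      linarith
    calc μ.real (A ∩ -A) * Real.exp (-((3/2:ℝ) ^ j * p)) ≤ μ.real (A ∩ -A) * 1 :=
          mul_le_mul_of_nonneg_left h3 measureReal_nonneg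
      _ = _ := mul_one _

end Pool.CIP
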